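import Pool.Agent.W482.IP.Stm2
set_option autoImplicit false

/-!
# Part UPY: the points `Y lam` are interior and central
-/

namespace Pool.Agent.W131.IP

open Pool.Agent.W482.IP

theorem hat_pos (r T : ℕ) (lam : ℝ) (hT : 2 ≤ T) (hl : 0 < lam) (j : ℕ) :
    0 < (hat r T lam j).1 ∧ 0 < (hat r T lam j).2 := by
  have hT' : (0:ℝ) < T := by
    have : 0 < T := by omega
    exact_mod_cast this
  induction j with
  | zero => simp [hat, hl]
  | succ j ih =>
    simp only [hat]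
    exact ⟨mul_pos (by positivity) (lt_min ih.1 ih.2), add_pos ih.1 ih.2⟩

theorem Y_even (r T : ℕ) (lam : ℝ) (j : ℕ) :
    Y r T lam (2 * j) = (hat r T lam j).1 / 2 ^ (j + 1) := by
  unfold Y
  have h1 : 2 * j % 2 = 0 := by omega
  have h2 : 2 * j / 2 = j := by omega
  rw [h1, h2]; simp

theorem Y_odd (r T : ℕ) (lam : ℝ) (j : ℕ) :
    Y r T lam (2 * j + 1) = (hat r T lam j).2 / 2 ^ (j + 1) := by
  unfold Y
  have h1 : (2 * j + 1) % 2 = 1 := by omega
  have h2 : (2 * j + 1) / 2 = j := by omega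
  rw [h1, h2]; simp

theorem hat_succ1 (r T : ℕ) (lam : ℝ) (j : ℕ) :
    (hat r T lam (j + 1)).1 =
      (T : ℝ) ^ 2 ^ (r - 1 - j) * min (hat r T lam j).1 (hat r T lam j).2 := rfl

theorem hat_succ2 (r T : ℕ) (lam : ℝ) (j : ℕ) :
    (hat r T lam (j + 1)).2 = (hat r T lam j).1 + (hat r T lam j).2 := rfl

theorem le_nonneg (r T : ℕ) (hT : 2 ≤ T) (z : ℕ → ℝ) (hz : Le r T z) (i : ℕ) :
    i ≤ r → 0 ≤ z (2 * (r - i)) ∧ 0 ≤ z (2 * (r - i) + 1) := by
  have hT' : (0:ℝ) < T := by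
    have : 0 < T := by omega
    exact_mod_cast this
  obtain ⟨-, -, h3, h4, h5⟩ := hz
  induction i with
  | zero => intro _; simpa using ⟨h4, h5⟩
  | succ i ih =>
    intro hi
    obtain ⟨a, b⟩ := ih (by omega)
    obtain ⟨c1, c2, c3⟩ := h3 (r - (i + 1)) (by omega)
    have e1 : 2 * (r - (i + 1)) + 2 = 2 * (r - i) := by omega
    rw [e1] at c1 c2
    have hp : (0:ℝ) < (T : ℝ) ^ 2 ^ (r - 1 - (r - (i + 1))) := by positivity
    constructor
    · by_contra hc
      push Not at hc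
      nlinarith [mul_neg_of_pos_of_neg hp hc]
    · by_contra hc
      push Not at hc
      nlinarith [mul_neg_of_pos_of_neg hp hc]

theorem le_hat (r T : ℕ) (hT : 2 ≤ T) (lam : ℝ) (hl : 0 < lam) (z : ℕ → ℝ) (hz : Le r T z)
    (h0 : z 0 ≤ lam / 2) (j : ℕ) :
    j ≤ r → z (2 * j) ≤ (hat r T lam j).1 ∧ z (2 * j + 1) ≤ (hat r T lam j).2 := by
  have hT' : (0:ℝ) < T := by
    have : 0 < T := by omega
    exact_mod_cast this
  obtain ⟨-, h2, h3, h4, h5⟩ := hz
  induction j with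
  | zero =>
    intro _
    simp only [hat, mul_zero, zero_add]
    exact ⟨by linarith, h2⟩
  | succ j ih =>
    intro hj
    obtain ⟨a, b⟩ := ih (by omega)
    obtain ⟨c1, c2, c3⟩ := h3 j (by omega)
    have hp : (0:ℝ) < (T : ℝ) ^ 2 ^ (r - 1 - j) := by positivity
    rw [hat_succ1, hat_succ2]
    have e1 : 2 * (j + 1) = 2 * j + 2 := by ring
    rw [e1]
    constructor
    · rcases min_choice (hat r T lam j).1 (hat r T lam j).2 with h | h
      · rw [h]
        exact c1.trans (mul_le_mul_of_nonneg_left a hp.le)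
      · rw [h]
        exact c2.trans (mul_le_mul_of_nonneg_left b hp.le)
    · exact c3.trans (add_le_add a b)

theorem Y_lt (r T : ℕ) (hT : 2 ≤ T) (lam : ℝ) (hl : 0 < lam) (hl2 : lam ≤ 2 * (T : ℝ) ^ 2 ^ r) :
    Lt r T (Y r T lam) := by
  have hT' : (0:ℝ) < T := by
    have : 0 < T := by omega
    exact_mod_cast this
  have hT2 : (2:ℝ) ≤ T := by exact_mod_cast hT
  refine ⟨?_, ?_, ?_, ?_, ?_⟩
  · have := Y_even r T lam 0
    simp only [mul_zero, zero_add, pow_one, hat] at this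
    rw [this, pow_succ]
    have hp : (0:ℝ) < (T : ℝ) ^ 2 ^ r := by positivity
    nlinarith
  · have := Y_odd r T lam 0
    simp only [mul_zero, zero_add, pow_one, hat] at this
    rw [this]; norm_num
  · intro j hj
    obtain ⟨hU, hV⟩ := hat_pos r T lam hT hl j
    have hp : (0:ℝ) < (T : ℝ) ^ 2 ^ (r - 1 - j) := by positivity
    have e1 : 2 * j + 2 = 2 * (j + 1) := by ring
    have e3 : 2 * j + 3 = 2 * (j + 1) + 1 := by ring
    rw [e1, e3, Y_even, Y_even, Y_odd, Y_odd, hat_succ1, hat_succ2]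
    have h2 : (0:ℝ) < 2 ^ (j + 1) := by positivity
    have hmin : 0 < min (hat r T lam j).1 (hat r T lam j).2 := lt_min hU hV
    have hm1 := min_le_left (hat r T lam j).1 (hat r T lam j).2
    have hm2 := min_le_right (hat r T lam j).1 (hat r T lam j).2
    have e4 : (2:ℝ) ^ (j + 1 + 1) = 2 ^ (j + 1) * 2 := pow_succ _ _
    refine ⟨?_, ?_, ?_⟩
    · rw [e4, ← mul_div_assoc, div_lt_div_iff₀ (by positivity) (by positivity)]
      nlinarith [mul_pos (mul_pos hp hmin) h2, mul_le_mul_of_nonneg_left hm1 (mul_pos hp h2).le,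
        mul_pos (mul_pos hp hU) h2]
    · rw [e4, ← mul_div_assoc, div_lt_div_iff₀ (by positivity) (by positivity)]
      nlinarith [mul_pos (mul_pos hp hmin) h2, mul_le_mul_of_nonneg_left hm2 (mul_pos hp h2).le,
        mul_pos (mul_pos hp hV) h2]
    · rw [e4, ← add_div, div_lt_div_iff₀ (by positivity) (by positivity)]
      nlinarith [mul_pos (add_pos hU hV) h2]
  · rw [Y_even]
    have := (hat_pos r T lam hT hl r).1
    positivity
  · rw [Y_odd]
    have := (hat_pos r T lam hT hl r).2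
    positivity

theorem slack (r T : ℕ) (hT : 2 ≤ T) (lam : ℝ) (hl : 0 < lam) (hl2 : lam ≤ 2 * (T : ℝ) ^ 2 ^ r)
    (z : ℕ → ℝ) (hz : Le r T z) (h0 : z 0 ≤ lam / 2) :
    SlackLe r T (2 ^ (r + 2)) z (Y r T lam) := by
  have hT' : (0:ℝ) < T := by
    have : 0 < T := by omega
    exact_mod_cast this
  have hT2 : (2:ℝ) ≤ T := by exact_mod_cast hT
  have hnn : ∀ j ≤ r, 0 ≤ z (2 * j) ∧ 0 ≤ z (2 * j + 1) := by
    intro j hj
    have := le_nonneg r T hT z hz (r - j) (by omega)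
    have e : r - (r - j) = j := by omega
    rwa [e] at this
  have hub := le_hat r T hT lam hl z hz h0
  have hM : (4:ℝ) ≤ 2 ^ (r + 2) := by
    have : (1:ℝ) ≤ 2 ^ r := one_le_pow₀ (by norm_num)
    rw [pow_add]; linarith
  refine ⟨?_, ?_, ?_, ?_, ?_⟩
  · have := Y_even r T lam 0
    simp only [mul_zero, zero_add, pow_one, hat] at this
    rw [this]
    have hz0 := (hnn 0 (Nat.zero_le _)).1
    simp only [mul_zero] at hz0
    have hp : (0:ℝ) < (T : ℝ) ^ 2 ^ r := by positivity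
    have hq : lam / 2 ≤ (T : ℝ) ^ (2 ^ r + 1) / 2 := by
      rw [pow_succ]; nlinarith
    have hP : (0:ℝ) < (T : ℝ) ^ (2 ^ r + 1) := by positivity
    nlinarith [mul_le_mul_of_nonneg_right hM (by linarith : (0:ℝ) ≤ (T : ℝ) ^ (2 ^ r + 1) - lam / 2)]
  · have := Y_odd r T lam 0
    simp only [mul_zero, zero_add, pow_one, hat] at this
    rw [this]
    have hz0 := (hnn 0 (Nat.zero_le _)).2
    simp only [mul_zero, zero_add] at hz0
    nlinarith
  · intro j hj
    obtain ⟨hU, hV⟩ := hat_pos r T lam hT hl j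
    obtain ⟨z0, z1⟩ := hnn j (by omega)
    obtain ⟨z2, z3⟩ := hnn (j + 1) (by omega)
    obtain ⟨u0, u1⟩ := hub j (by omega)
    have hp : (0:ℝ) < (T : ℝ) ^ 2 ^ (r - 1 - j) := by positivity
    have e1 : 2 * j + 2 = 2 * (j + 1) := by ring
    have e3 : 2 * j + 3 = 2 * (j + 1) + 1 := by ring
    rw [e1, e3, Y_even, Y_even, Y_odd, Y_odd, hat_succ1, hat_succ2]
    set U := (hat r T lam j).1 with hUd
    set V := (hat r T lam j).2 with hVd
    set e := (T : ℝ) ^ 2 ^ (r - 1 - j) with hed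
    have hm1 := min_le_left U V
    have hm2 := min_le_right U V
    have e4 : (2:ℝ) ^ (j + 1 + 1) = 2 ^ (j + 1) * 2 := pow_succ _ _
    have hD : (0:ℝ) < 2 ^ (j + 1) := by positivity
    have e5 : (2:ℝ) ^ (r + 2) = 2 ^ (j + 1) * 2 * 2 ^ (r - j) := by
      rw [← pow_succ, ← pow_add]; congr 1; omega
    have h1 : (1:ℝ) ≤ 2 ^ (r - j) := one_le_pow₀ (by norm_num)
    -- key computation
    have key : ∀ a b : ℝ, 0 ≤ a → b ≤ a →
        a ≤ 2 ^ (r + 2) * (a / 2 ^ (j + 1) - b / 2 ^ (j + 1 + 1)) := by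
      intro a b ha hb
      have : 2 ^ (r + 2) * (a / 2 ^ (j + 1) - b / 2 ^ (j + 1 + 1)) = 2 ^ (r - j) * (2 * a - b) := by
        rw [e5, e4]; field_simp
      rw [this]
      nlinarith [mul_le_mul_of_nonneg_right h1 (by linarith : (0:ℝ) ≤ 2 * a - b)]
    refine ⟨?_, ?_, ?_⟩
    · have k1 := key (e * U) (e * min U V) (by positivity) (mul_le_mul_of_nonneg_left hm1 hp.le)
      have k2 := mul_le_mul_of_nonneg_left u0 hp.le
      rw [← mul_div_assoc]
      linarith
    · have k1 := key (e * V) (e * min U V) (by positivity) (mul_le_mul_of_nonneg_left hm2 hp.le)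
      have k2 := mul_le_mul_of_nonneg_left u1 hp.le
      rw [← mul_div_assoc]
      linarith
    · have k1 := key (U + V) (U + V) (by positivity) le_rfl
      rw [← add_div]
      linarith
  · obtain ⟨u0, u1⟩ := hub r le_rfl
    obtain ⟨hU, hV⟩ := hat_pos r T lam hT hl r
    rw [Y_even]
    have e5 : (2:ℝ) ^ (r + 2) = 2 ^ (r + 1) * 2 := pow_succ _ _
    have : (2:ℝ) ^ (r + 2) * ((hat r T lam r).1 / 2 ^ (r + 1)) = 2 * (hat r T lam r).1 := by
      rw [e5]; field_simp
    rw [this]; linarith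
  · obtain ⟨u0, u1⟩ := hub r le_rfl
    obtain ⟨hU, hV⟩ := hat_pos r T lam hT hl r
    rw [Y_odd]
    have e5 : (2:ℝ) ^ (r + 2) = 2 ^ (r + 1) * 2 := pow_succ _ _
    have : (2:ℝ) ^ (r + 2) * ((hat r T lam r).2 / 2 ^ (r + 1)) = 2 * (hat r T lam r).2 := by
      rw [e5]; field_simp
    rw [this]; linarith

theorem upy : Pool.Agent.W482.IP.UPY := by
  intro r T lam hT hl hl2
  refine ⟨Y_lt r T hT lam hl hl2, ?_, fun z hz h0 => slack r T hT lam hl hl2 z hz h0⟩
  have := Y_even r T lam 0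
  simpa only [mul_zero, zero_add, pow_one, hat] using this

end Pool.Agent.W131.IP
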