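import Pool.Agent.W973.IP.Defs

set_option autoImplicit false

/-! Project IP (helper973): `G(u,0)` is negative for large `u`. -/

namespace Pool.Agent.W131.IP.Uco
open Pool.Agent.W973.IP
open MvPolynomial

lemma mono_bound {σ : Type} [Fintype σ] (x : σ → ℝ) (M : ℝ) (hM : 1 ≤ M) (hx : ∀ i, |x i| ≤ M)
    (m : σ →₀ ℕ) (hm : m.sum (fun _ e => e) ≤ 4) : |m.prod fun i k => x i ^ k| ≤ M ^ 4 := by
  have h1 : |m.prod fun i k => x i ^ k| ≤ M ^ (m.sum (fun _ e => e)) := by
    unfold Finsupp.prod Finsupp.sum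
    rw [Finset.abs_prod, ← Finset.prod_pow_eq_pow_sum]
    apply Finset.prod_le_prod
    · intro i _
      exact abs_nonneg _
    · intro i _
      rw [abs_pow]
      exact pow_le_pow_left₀ (abs_nonneg _) (hx i) _
  exact h1.trans (pow_le_pow_right₀ hM hm)

lemma hv_bound {σ : Type} [Fintype σ] (P : MvPolynomial σ ℚ) (hP : P.totalDegree ≤ 4) :
    ∃ C : ℝ, 0 ≤ C ∧ ∀ (x : σ → ℝ) (M : ℝ), 1 ≤ M → (∀ i, |x i| ≤ M) →
      |aeval x P| ≤ C * M ^ 4 := by
  refine ⟨∑ m ∈ P.support, |((coeff m P : ℚ) : ℝ)|, Finset.sum_nonneg fun _ _ => abs_nonneg _, ?_⟩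
  intro x M hM hx
  have h1 : aeval x P = ∑ m ∈ P.support, ((coeff m P : ℚ) : ℝ) * m.prod (fun i k => x i ^ k) := by
    rw [aeval_def, eval₂_eq]
    refine Finset.sum_congr rfl fun m _ => ?_
    rfl
  rw [h1, Finset.sum_mul]
  refine (Finset.abs_sum_le_sum_abs _ _).trans (Finset.sum_le_sum fun m hm => ?_)
  rw [abs_mul]
  refine mul_le_mul_of_nonneg_left (mono_bound x M hM hx m ?_) (abs_nonneg _)
  exact (le_totalDegree hm).trans hP

lemma sum_six {n : ℕ} (u : Vec n) (h : 0 < ‖u‖) : ‖u‖ ^ 6 ≤ ∑ l, u l ^ 6 := by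
  by_contra hcon
  rw [not_le] at hcon
  have h1 : ‖u‖ < ‖u‖ := by
    rw [pi_norm_lt_iff h]
    intro l
    have h2 : |u l| ^ 6 ≤ ∑ l, u l ^ 6 := by
      have h3 : |u l| ^ 6 = u l ^ 6 := by
        rw [← abs_pow, abs_of_nonneg (by positivity)]
      rw [h3]
      exact Finset.single_le_sum (f := fun l => u l ^ 6) (fun i _ => by positivity)
        (Finset.mem_univ l)
    exact lt_of_pow_lt_pow_left₀ 6 (norm_nonneg _) (h2.trans_lt hcon)
  exact lt_irrefl _ h1

theorem uco (h : S_QB) : S_UCO := by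
  intro n P a hP c₀ K hc₀
  obtain ⟨C, hC, hq⟩ := h n a
  obtain ⟨C', hC', hb⟩ := hv_bound P hP
  set A : ℝ := 16 * C' + |K| * (1 + C * (1 + n)) with hA
  have hA0 : 0 ≤ A := by positivity
  refine ⟨1 + A / c₀, ?_⟩
  intro c e u hc he heK hU
  set t : ℝ := ‖u‖ with ht
  have hdiv : 0 ≤ A / c₀ := by positivity
  have ht1 : 1 ≤ t := by linarith
  have ht0 : 0 < t := by linarith
  have hX : Pool.Agent.W973.IP.X (0 : Vec n) = 1 := by
    unfold Pool.Agent.W973.IP.X
    simp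
  have hsix := sum_six u ht0
  have hhv : hv P u 0 ≤ C' * (16 * t ^ 4) := by
    have h1 := hb (Sum.elim u (0 : Vec n)) (1 + t) (by linarith) (by
      rintro (l | l)
      · have h2 := norm_le_pi_norm u l
        rw [Real.norm_eq_abs] at h2
        show |u l| ≤ 1 + t
        linarith
      · show |(0 : ℝ)| ≤ 1 + t
        rw [abs_zero]
        linarith)
    have h3 : (1 + t) ^ 4 ≤ 16 * t ^ 4 := by
      have h4 : (1 + t) ^ 4 ≤ (2 * t) ^ 4 := pow_le_pow_left₀ (by linarith) (by linarith) 4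
      have h5 : (2 * t) ^ 4 = 16 * t ^ 4 := by ring
      linarith
    have h6 : hv P u 0 ≤ C' * (1 + t) ^ 4 := (le_abs_self _).trans h1
    exact h6.trans (mul_le_mul_of_nonneg_left h3 hC')
  have ht4 : t ≤ t ^ 4 := le_self_pow₀ ht1 (by norm_num)
  have hqa : qa a u 0 ≤ (1 + C * (1 + n)) * t ^ 4 := by
    have h1 := hq u 0
    rw [hX, one_pow, one_pow] at h1
    have h2 : ∑ l, |u l| ≤ n * t := by
      calc ∑ l, |u l| ≤ ∑ _l : Fin n, t := Finset.sum_le_sum fun l _ => by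
            have h2 := norm_le_pi_norm u l
            rw [Real.norm_eq_abs] at h2
            exact h2
        _ = n * t := by rw [Finset.sum_const, Finset.card_univ, Fintype.card_fin, nsmul_eq_mul]
    have h3 : qa a u 0 - 1 ≤ C * (1 + ∑ l, |u l|) := (le_abs_self _).trans h1
    have h4 : C * (1 + ∑ l, |u l|) ≤ C * (1 + n * t) :=
      mul_le_mul_of_nonneg_left (by linarith) hC
    have hn : (0 : ℝ) ≤ n := Nat.cast_nonneg n
    have h5 : C * (1 + n * t) ≤ C * ((1 + n) * t) :=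
      mul_le_mul_of_nonneg_left (by nlinarith) hC
    have h6 : 1 + C * ((1 + n) * t) ≤ (1 + C * (1 + n)) * t := by
      have : (1 + C * (1 + n)) * t = t + C * ((1 + n) * t) := by ring
      linarith
    have h7 : (1 + C * (1 + n)) * t ≤ (1 + C * (1 + n)) * t ^ 4 :=
      mul_le_mul_of_nonneg_left ht4 (by positivity)
    linarith
  have heqa : e * qa a u 0 ≤ |K| * ((1 + C * (1 + n)) * t ^ 4) := by
    have h1 : e * qa a u 0 ≤ e * ((1 + C * (1 + n)) * t ^ 4) := mul_le_mul_of_nonneg_left hqa he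
    have h2 : e ≤ |K| := heK.trans (le_abs_self K)
    exact h1.trans (mul_le_mul_of_nonneg_right h2 (by positivity))
  have hcs : c₀ * t ^ 6 ≤ c * ∑ l, u l ^ 6 := mul_le_mul hc hsix (by positivity) (by linarith)
  unfold G
  rw [hX, one_pow, mul_one]
  have hfin : A * t ^ 4 < c₀ * t ^ 6 := by
    have h1 : A < c₀ * t ^ 2 := by
      have h2 : A / c₀ < t ^ 2 := by
        have h3 : t ≤ t ^ 2 := le_self_pow₀ ht1 (by norm_num)
        linarith
      rw [div_lt_iff₀ hc₀] at h2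
      linarith
    have h4 : 0 < t ^ 4 := by positivity
    calc A * t ^ 4 < (c₀ * t ^ 2) * t ^ 4 := mul_lt_mul_of_pos_right h1 h4
      _ = c₀ * t ^ 6 := by ring
  have hAe : A * t ^ 4 = C' * (16 * t ^ 4) + |K| * ((1 + C * (1 + n)) * t ^ 4) := by
    rw [hA]
    ring
  linarith

end Pool.Agent.W131.IP.Uco
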